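import Mathlib

/-! A generic point of a closed set is an interior point. -/

set_option autoImplicit false

namespace Pool.Agent.Q205.Baire

open Filter Topology Set

theorem ev_int {X : Type*} [TopologicalSpace X] {A : Set X} (hA : IsClosed A) :
    ∀ᶠ x in residual X, x ∈ A → x ∈ interior A := by
  have h1 : IsOpen (frontier A)ᶜ := isClosed_frontier.isOpen_compl
  have h2 : Dense (frontier A)ᶜ := interior_eq_empty_iff_dense_compl.1 (interior_frontier hA)
  filter_upwards [residual_of_dense_open h1 h2] with x hx hxA
  by_contra hno
  exact hx ⟨subset_closure hxA, hno⟩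

end Pool.Agent.Q205.Baire
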