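import Pool.Agent.Q205.Baire.Joint
import Pool.Agent.Q205.QLim.Fin
import Pool.Agent.Y264.QR.All

/-! The unfolded spectrum of conformal metrics is a continuous family of spectra. -/

set_option autoImplicit false

open Set Filter Topology MeasureTheory
open scoped Real ContDiff

noncomputable section

namespace Pool.Agent.Q205.Baire

open Pool.Agent.Y262.QE Pool.Agent.Y264.QR

/-- Weyl's law for the counting function -/
theorem count_div {F : Type*} [TopologicalSpace F] (X : Spectra F) (g : F)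
    (h : Tendsto (fun k : ℕ => X.x k g / (k + 1)) atTop (𝓝 1)) :
    Tendsto (fun T : ℝ => (count X T g : ℝ) / T) atTop (𝓝 1) := by
  have hc : Tendsto (fun T : ℝ => count X T g) atTop atTop := by
    rw [tendsto_atTop]
    intro n
    filter_upwards [eventually_ge_atTop (X.x n g)] with T hT
    exact ((lt_count X T g n).2 hT).le
  have h1 : Tendsto (fun N : ℕ => (N : ℝ) / X.x (N - 1) g) atTop (𝓝 1) := by
    have h2 : Tendsto (fun N : ℕ => X.x (N - 1) g / (((N - 1 : ℕ) : ℝ) + 1)) atTop (𝓝 1) :=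
      h.comp (tendsto_sub_atTop_nat 1)
    have h3 := h2.inv₀ one_ne_zero
    rw [inv_one] at h3
    refine h3.congr' ?_
    filter_upwards [eventually_ge_atTop 1] with N hN
    rw [inv_div]
    congr 1
    rw [Nat.cast_sub hN]
    push_cast
    ring
  have h4 : Tendsto (fun N : ℕ => (N : ℝ) / X.x N g) atTop (𝓝 1) := by
    have h3 := h.inv₀ one_ne_zero
    rw [inv_one] at h3
    have h5 := (tendsto_natCast_div_add_atTop (1 : ℝ)).mul h3
    rw [one_mul] at h5
    refine h5.congr fun N => ?_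
    rw [inv_div]
    have : ((N : ℝ) + 1) ≠ 0 := by positivity
    field_simp
  have hpos : ∀ᶠ N : ℕ in atTop, 0 < X.x (N - 1) g :=
    ((X.unb g).comp (tendsto_sub_atTop_nat 1)).eventually (eventually_gt_atTop 0)
  refine tendsto_of_tendsto_of_tendsto_of_le_of_le' (h4.comp hc) (h1.comp hc) ?_ ?_
  · filter_upwards [eventually_gt_atTop 0] with T hT
    have h5 : T < X.x (count X T g) g := not_le.1 ((lt_count X T g _).not.1 (lt_irrefl _))
    exact div_le_div_of_nonneg_left (Nat.cast_nonneg _) hT h5.le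
  · filter_upwards [eventually_gt_atTop 0, hc.eventually hpos, hc.eventually (eventually_ge_atTop 1)]
      with T hT h6 h7
    have h5 : X.x (count X T g - 1) g ≤ T := (lt_count X T g _).1 (by omega)
    exact div_le_div_of_nonneg_left (Nat.cast_nonneg _) h6 h5

theorem cont_int {M : Type} [MetricSpace M] [CompactSpace M] [MeasurableSpace M] [BorelSpace M]
    (μ : Measure M) [IsFiniteMeasure μ] : Continuous fun φ : C(M, ℝ) => ∫ x, Real.exp (φ x) ∂μ := by
  have h1 : Continuous fun f : C(M, ℝ) => ∫ x, f x ∂μ := by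
    refine LipschitzWith.continuous (K := (μ.real univ).toNNReal)
      (LipschitzWith.of_dist_le_mul fun f g => ?_)
    have hint : ∀ f : C(M, ℝ), Integrable (fun x => f x) μ := fun f =>
      Pool.Agent.Y155.QR.int_cont μ f.continuous
    rw [Real.dist_eq, ← integral_sub (hint f) (hint g), dist_eq_norm]
    have h2 := norm_integral_le_of_norm_le_const (μ := μ) (f := fun x => f x - g x) (C := ‖f - g‖)
      (ae_of_all _ fun x => (f - g).norm_coe_le_norm x)
    rw [Real.coe_toNNReal _ measureReal_nonneg, mul_comm]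
    exact h2
  exact h1.comp (ContinuousMap.continuous_postcomp ⟨Real.exp, Real.continuous_exp⟩)

variable {M : Type} [MetricSpace M] [CompactSpace M] [MeasurableSpace M] [BorelSpace M]
  (μ : Measure M) [IsFiniteMeasure μ] {H : Type} [NormedAddCommGroup H] [InnerProductSpace ℝ H]
  (a : H →L[ℝ] H →L[ℝ] ℝ) (b : C(M, ℝ) → H →L[ℝ] H →L[ℝ] ℝ)

/-- the unfolded level -/
def unf (k : ℕ) (φ : C(M, ℝ)) : ℝ := (∫ x, Real.exp (φ x) ∂μ) / (4 * π) * Ev a (b φ) k

theorem unf_div (hA : ∀ φ : C(M, ℝ), 0 < ∫ x, Real.exp (φ x) ∂μ) (hW : Wl μ a b) (φ : C(M, ℝ)) :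
    Tendsto (fun k : ℕ => unf μ a b k φ / (k + 1)) atTop (𝓝 1) := by
  have h1 := (hW φ).const_mul ((∫ x, Real.exp (φ x) ∂μ) / (4 * π))
  have h2 : (∫ x, Real.exp (φ x) ∂μ) / (4 * π) * (4 * π / ∫ x, Real.exp (φ x) ∂μ) = 1 := by
    have := (hA φ).ne'
    have := Real.pi_ne_zero
    field_simp
  rw [h2] at h1
  refine h1.congr fun k => ?_
  unfold unf
  ring

/-- the continuous family of spectra -/
def spectra (hF : ∀ φ, Fm a (b φ)) (hA : ∀ φ : C(M, ℝ), 0 < ∫ x, Real.exp (φ x) ∂μ)
    (hexp : ∀ (φ ψ : C(M, ℝ)) (v : H), b φ v v ≤ Real.exp ‖φ - ψ‖ * b ψ v v) (hW : Wl μ a b)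
    {F : Type*} [TopologicalSpace F] (ι : F → C(M, ℝ)) (hι : Continuous ι) : Spectra F where
  x k φ := unf μ a b k (ι φ)
  cont k := by
    obtain ⟨l1, l2, l3, l4, l5⟩ := Pool.Agent.Y390.QR.LIP.lip M μ H a b hF hexp
    exact ((((cont_int μ).div_const _).mul (l4 k)).comp hι)
  mono φ := by
    obtain ⟨l1, l2, l3, l4, l5⟩ := Pool.Agent.Y390.QR.LIP.lip M μ H a b hF hexp
    intro i j hij
    exact mul_le_mul_of_nonneg_left (l2 _ _ _ hij) (div_nonneg (hA _).le (by positivity))
  unb φ := by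
    have h1 := unf_div μ a b hA hW (ι φ)
    have h2 : Tendsto (fun k : ℕ => (k : ℝ) + 1) atTop atTop :=
      tendsto_natCast_atTop_atTop.atTop_add tendsto_const_nhds
    have h3 := h1.pos_mul_atTop one_pos h2
    refine h3.congr fun k => ?_
    have : ((k : ℝ) + 1) ≠ 0 := by positivity
    field_simp

end Pool.Agent.Q205.Baire
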